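import Mathlib
import Pool.Agent.Lib.helper4.Sharp3

set_option autoImplicit false

open Filter Topology OnePoint Pool.Agent.Lib.helper4.Sharp3

namespace Pool.Agent.Results.MP_3e0647_al.NoTop

/-- `M^(3)`: triples of pairwise distinct points, with the subspace topology of `M × M × M`. -/
abbrev Tr (M : Type) : Type := {p : M × M × M // p.1 ≠ p.2.1 ∧ p.1 ≠ p.2.2 ∧ p.2.1 ≠ p.2.2}

/-- The coordinatewise action of a group element on triples of pairwise distinct points. -/
def act {G M : Type} [Group G] [MulAction G M] (g : G) (t : Tr M) : Tr M :=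
  ⟨(g • t.1.1, g • t.1.2.1, g • t.1.2.2),
    fun h => t.2.1 (MulAction.injective g h), fun h => t.2.2.1 (MulAction.injective g h),
    fun h => t.2.2.2 (MulAction.injective g h)⟩

/-- There are an infinite compact Hausdorff space `M` and a group `G` acting on `M` sharply
3-transitively by homeomorphisms such that no topology on `G` makes every orbit map
`G → M^(3)` a homeomorphism. -/
theorem result :
    ∃ (M : Type) (_ : TopologicalSpace M) (_ : CompactSpace M) (_ : T2Space M) (_ : Infinite M)
      (G : Type) (_ : Group G) (_ : MulAction G M),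
      (∀ g : G, Continuous fun x : M => g • x) ∧
      (∀ s t : Tr M, ∃! g : G, act g s = t) ∧
      ¬ ∃ τ : TopologicalSpace G, ∀ t : Tr M, @IsHomeomorph G (Tr M) τ _ fun g => act g t := by
  classical
  obtain ⟨φ, w, hφ, hw⟩ := gf4
  obtain ⟨χ, hχ, a, ha, hlim⟩ := data φ hφ w hw
  let K := LaurentSeries (GaloisField 2 2)
  have hσ : ∀ x : K, sig φ (sig φ x) = x := by
    intro x; ext n; rw [sig_coeff, sig_coeff, hφ]
  have hH : ∀ a b : Multiplicative (ZMod 2), a ≠ 1 → b ≠ 1 → a * b = 1 := by decide
  have := loc_compact (F := GaloisField 2 2)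
  have hinf : Infinite K := Infinite.of_injective
    (fun n : ℤ => (HahnSeries.single n 1 : K)) fun n m h => by
      have h1 := v_single n (1 : GaloisField 2 2) one_ne_zero
      have h' : (HahnSeries.single n 1 : K) = HahnSeries.single m 1 := h
      rw [h', v_single m _ one_ne_zero, WithZero.exp_inj] at h1
      omega
  refine ⟨OnePoint K, inferInstance, inferInstance, inferInstance, inferInstance,
    GG (sig φ) hσ χ hχ hH, inferInstance, inferInstance,
    cont_GG (sig φ) hσ χ hχ hH cont_J' (sig_cont φ), fun s t => ?_, ?_⟩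
  · have := sharp (sig φ) hσ χ hχ hH s.1.1 s.1.2.1 s.1.2.2 t.1.1 t.1.2.1 t.1.2.2
      s.2.1 s.2.2.1 s.2.2.2 t.2.1 t.2.2.1 t.2.2.2
    refine (existsUnique_congr fun g => ?_).mp this
    rw [Subtype.ext_iff, Prod.ext_iff, Prod.ext_iff]
    rfl
  · rintro ⟨τ, hτ⟩
    let ω : K := HahnSeries.single 0 w
    have hw0 : w ≠ 0 := by rintro rfl; exact hw (map_zero φ)
    have hω0 : ω ≠ 0 := HahnSeries.single_ne_zero hw0
    have hω : sig φ ω ≠ ω := by
      intro h
      have := congrArg (fun x : K => x.coeff 0) h
      simp only [sig_coeff, ω, HahnSeries.coeff_single_same] at this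
      exact hw this
    let tr : (k : K) → k ≠ 0 → Tr (OnePoint K) := fun k hk =>
      ⟨(∞, ((0 : K) : OnePoint K), (k : OnePoint K)), OnePoint.infty_ne_coe _,
        OnePoint.infty_ne_coe _, fun h => hk (OnePoint.coe_eq_coe.mp h).symm⟩
    choose g hg1 hg2 using fun m => diag_el (sig φ) hσ χ hχ hH (a m) (ha m)
    have h1 : Tendsto (fun m => act (g m) (tr 1 one_ne_zero)) atTop
        (𝓝 (act (1 : GG (sig φ) hσ χ hχ hH) (tr 1 one_ne_zero))) := by
      rw [tendsto_subtype_rng]
      simp only [act, tr, hg1, hg2, one_smul, map_zero, map_one, mul_zero, mul_one]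
      exact tendsto_const_nhds.prodMk_nhds (tendsto_const_nhds.prodMk_nhds
        ((OnePoint.continuous_coe.tendsto _).comp hlim))
    have h2 : Tendsto g atTop (𝓝 1) :=
      (hτ (tr 1 one_ne_zero)).isEmbedding.isInducing.tendsto_nhds_iff.mpr h1
    have h3 := ((hτ (tr ω hω0)).continuous.tendsto 1).comp h2
    have h4 := ((continuous_snd.comp (continuous_snd.comp continuous_subtype_val)).tendsto _).comp h3
    simp only [Function.comp_def, act, tr, hg2, one_smul] at h4
    have h5 : Tendsto (fun m => (((a m : K) * sig φ ω : K) : OnePoint K)) atTop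
        (𝓝 ((1 * sig φ ω : K) : OnePoint K)) :=
      (OnePoint.continuous_coe.tendsto _).comp (hlim.mul_const _)
    have h6 := OnePoint.coe_eq_coe.mp (tendsto_nhds_unique h5 h4)
    rw [one_mul] at h6
    exact hω h6

end Pool.Agent.Results.MP_3e0647_al.NoTop
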